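import Pool.Agent.Lib.MP_c5d73d_lc.T.Basic

/-!
# Almost disjoint families of `B`-valued reals
-/

universe u

open Cardinal Set

namespace Pool.Agent.Lib.MP_c5d73d_lc.T.H4

variable {B : Type u} [CompleteBooleanAlgebra B]

/-- The value of `|X ∩ m| = n`. -/
def cnt (X : ℕ → B) : ℕ → ℕ → B
  | 0, 0 => ⊤
  | 0, _ + 1 => ⊥
  | m + 1, 0 => cnt X m 0 ⊓ (X m)ᶜ
  | m + 1, n + 1 => (cnt X m (n + 1) ⊓ (X m)ᶜ) ⊔ (cnt X m n ⊓ X m)

lemma iSup_cnt (X : ℕ → B) (m : ℕ) : ⨆ n, cnt X m n = ⊤ := by
  induction m with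
  | zero => exact top_le_iff.1 (le_iSup_of_le 0 le_rfl)
  | succ m ih =>
    rw [← top_le_iff, ← ih]
    refine iSup_le fun n => ?_
    calc cnt X m n = (cnt X m n ⊓ (X m)ᶜ) ⊔ (cnt X m n ⊓ X m) := by
          rw [← inf_sup_left, sup_comm, sup_compl_eq_top, inf_top_eq]
      _ ≤ cnt X (m + 1) n ⊔ cnt X (m + 1) (n + 1) := by
          refine sup_le_sup ?_ le_sup_right
          cases n with
          | zero => exact le_rfl
          | succ n => exact le_sup_left
      _ ≤ _ := sup_le (le_iSup _ n) (le_iSup _ (n + 1))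

lemma cnt_disjoint (X : ℕ → B) (m : ℕ) : ∀ n k, n ≠ k → cnt X m n ⊓ cnt X m k = ⊥ := by
  induction m with
  | zero =>
    intro n k hnk
    cases n with
    | zero =>
      cases k with
      | zero => exact absurd rfl hnk
      | succ k => exact inf_bot_eq _
    | succ n => exact bot_inf_eq _
  | succ m ih =>
    have key : ∀ a b c d e : B, a ⊓ c = ⊥ → b ⊓ d = ⊥ →
        ((a ⊓ eᶜ) ⊔ (b ⊓ e)) ⊓ ((c ⊓ eᶜ) ⊔ (d ⊓ e)) = ⊥ := by
      intro a b c d e h1 h2
      refine le_bot_iff.1 ?_
      rw [inf_sup_right, inf_sup_left, inf_sup_left]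
      refine sup_le (sup_le ?_ ?_) (sup_le ?_ ?_)
      · rw [← h1]; exact inf_le_inf inf_le_left inf_le_left
      · rw [← compl_inf_self e]; exact inf_le_inf inf_le_right inf_le_right
      · rw [← inf_compl_self e]; exact inf_le_inf inf_le_right inf_le_right
      · rw [← h2]; exact inf_le_inf inf_le_left inf_le_left
    intro n k hnk
    cases n with
    | zero =>
      cases k with
      | zero => exact absurd rfl hnk
      | succ k =>
        have := key (cnt X m 0) ⊥ (cnt X m (k + 1)) (cnt X m k) (X m) (ih _ _ hnk) (bot_inf_eq _)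
        rwa [bot_inf_eq, sup_bot_eq] at this
    | succ n =>
      cases k with
      | zero =>
        have := key (cnt X m (n + 1)) (cnt X m n) (cnt X m 0) ⊥ (X m) (ih _ _ hnk) (inf_bot_eq _)
        rwa [bot_inf_eq, sup_bot_eq] at this
      | succ k =>
        exact key _ _ _ _ _ (ih _ _ hnk) (ih _ _ fun h => hnk (by rw [h]))

/-- If the count at `m` is `n` and `X` has an element `≥ m`, then some element `k ≥ m` of `X` has
count `n`. -/
lemma cnt_next (X : ℕ → B) (n m j : ℕ) :
    cnt X m n ⊓ X (m + j) ≤ ⨆ k, ⨆ (_ : m ≤ k), cnt X k n ⊓ X k := by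
  induction j generalizing m with
  | zero => exact le_iSup_of_le m (le_iSup_of_le le_rfl le_rfl)
  | succ j ih =>
    have h1 : cnt X m n ⊓ X (m + (j + 1)) =
        (cnt X m n ⊓ X (m + (j + 1)) ⊓ X m) ⊔ (cnt X m n ⊓ X (m + (j + 1)) ⊓ (X m)ᶜ) := by
      rw [← inf_sup_left, sup_compl_eq_top, inf_top_eq]
    rw [h1]
    refine sup_le ?_ ?_
    · exact le_iSup_of_le m (le_iSup_of_le le_rfl (le_inf (inf_le_left.trans inf_le_left)
        inf_le_right))
    · have h2 : cnt X m n ⊓ (X m)ᶜ ≤ cnt X (m + 1) n := by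
        cases n with
        | zero => exact le_rfl
        | succ n => exact le_sup_left
      have h3 : cnt X m n ⊓ X (m + (j + 1)) ⊓ (X m)ᶜ ≤ cnt X (m + 1) n ⊓ X (m + 1 + j) := by
        refine le_inf (le_trans (le_inf (inf_le_left.trans inf_le_left) inf_le_right) h2) ?_
        rw [show m + 1 + j = m + (j + 1) by omega]
        exact inf_le_left.trans inf_le_right
      refine (h3.trans (ih (m + 1))).trans ?_
      exact iSup_mono fun k => iSup_le fun hk => le_iSup_of_le (by omega) le_rfl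

/-- The real of the elements of `X` with index in `T`. -/
def sel (X : ℕ → B) (T : Set ℕ) (m : ℕ) : B := X m ⊓ ⨆ n, ⨆ (_ : n ∈ T), cnt X m n

/-- The value of `X has infinitely many elements`. -/
lemma compl_fin (a : ℕ → B) : (fin a)ᶜ = ⨅ n, ⨆ m, ⨆ (_ : n ≤ m), a m := by
  unfold fin
  simp only [compl_iSup, compl_iInf, compl_compl]

/-- If `X` is infinite then every index is reached. -/
lemma reach (X : ℕ → B) (n : ℕ) : (fin X)ᶜ ≤ ⨆ k, cnt X k n ⊓ X k := by
  induction n with
  | zero =>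
    have h1 : (fin X)ᶜ ≤ ⨆ j, cnt X 0 0 ⊓ X (0 + j) := by
      rw [compl_fin]
      refine (iInf_le _ 0).trans (iSup_le fun m => iSup_le fun _ => le_iSup_of_le m ?_)
      rw [zero_add]
      exact le_inf le_top le_rfl
    refine h1.trans (iSup_le fun j => (cnt_next X 0 0 j).trans ?_)
    exact iSup_mono fun k => iSup_le fun _ => le_rfl
  | succ n ih =>
    have h1 : (fin X)ᶜ ≤ ⨆ k, (cnt X k n ⊓ X k) ⊓ (fin X)ᶜ := by
      rw [← iSup_inf_eq]; exact le_inf ih le_rfl
    refine h1.trans (iSup_le fun k => ?_)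
    have h2 : cnt X k n ⊓ X k ≤ cnt X (k + 1) (n + 1) := le_sup_right
    have h3 : (fin X)ᶜ ≤ ⨆ j, X (k + 1 + j) := by
      rw [compl_fin]
      refine (iInf_le _ (k + 1)).trans (iSup_le fun m => iSup_le fun hm =>
        le_iSup_of_le (m - (k + 1)) ?_)
      rw [show k + 1 + (m - (k + 1)) = m by omega]
    refine (inf_le_inf h2 h3).trans ?_
    rw [inf_iSup_eq]
    refine iSup_le fun j => (cnt_next X (n + 1) (k + 1) j).trans ?_
    exact iSup_mono fun k => iSup_le fun _ => le_rfl

lemma cnt_le (X : ℕ → B) (m n : ℕ) (h : m < n) : cnt X m n = ⊥ := by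
  induction m generalizing n with
  | zero =>
    cases n with
    | zero => omega
    | succ n => rfl
  | succ m ih =>
    cases n with
    | zero => omega
    | succ n =>
      change (cnt X m (n + 1) ⊓ (X m)ᶜ) ⊔ (cnt X m n ⊓ X m) = ⊥
      rw [ih _ (by omega), ih _ (by omega), bot_inf_eq, bot_inf_eq, sup_bot_eq]

lemma fin_sel_le (X : ℕ → B) {T : Set ℕ} (hT : T.Infinite) : fin (sel X T) ≤ fin X := by
  rw [← compl_le_compl_iff_le, compl_fin (sel X T)]
  refine le_iInf fun N => ?_
  obtain ⟨n, hnT, hn⟩ := hT.exists_gt N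
  refine (reach X n).trans (iSup_le fun k => ?_)
  by_cases hk : N ≤ k
  · refine le_iSup_of_le k (le_iSup_of_le hk ?_)
    exact le_inf inf_le_right (inf_le_left.trans (le_iSup_of_le n (le_iSup_of_le hnT le_rfl)))
  · rw [cnt_le X k n (by omega), bot_inf_eq]
    exact bot_le

/-- Elements with bounded count are finitely many. -/
lemma fin_bounded (X : ℕ → B) (n : ℕ) : fin (fun m => X m ⊓ ⨆ k, ⨆ (_ : k ≤ n), cnt X m k) = ⊤ := by
  -- on the value where `X` is infinite, some count exceeds `n` and stays so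
  set Y : ℕ → B := fun m => X m ⊓ ⨆ k, ⨆ (_ : k ≤ n), cnt X m k with hY
  have hmono : ∀ m j, cnt X m (n + 1) ≤ ⨆ k, ⨆ (_ : n + 1 ≤ k), cnt X (m + j) k := by
    intro m j
    induction j with
    | zero => exact le_iSup_of_le (n + 1) (le_iSup_of_le le_rfl le_rfl)
    | succ j ih =>
      refine ih.trans (iSup_le fun k => iSup_le fun hk => ?_)
      have h1 : cnt X (m + j) k = (cnt X (m + j) k ⊓ (X (m + j))ᶜ) ⊔
          (cnt X (m + j) k ⊓ X (m + j)) := by
        rw [← inf_sup_left, sup_comm, sup_compl_eq_top, inf_top_eq]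
      rw [h1, show m + (j + 1) = (m + j) + 1 by omega]
      refine sup_le (le_iSup_of_le k (le_iSup_of_le hk ?_))
        (le_iSup_of_le (k + 1) (le_iSup_of_le (by omega) le_sup_right))
      cases k with
      | zero => omega
      | succ k => exact le_sup_left
  have h2 : ∀ k, cnt X k (n + 1) ≤ fin Y := by
    intro k
    refine le_iSup_of_le k (le_iInf fun m => le_iInf fun hm => ?_)
    obtain ⟨j, rfl⟩ := Nat.exists_eq_add_of_le hm
    refine (hmono k j).trans (iSup_le fun l => iSup_le fun hl => ?_)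
    rw [le_compl_iff_disjoint_right, disjoint_iff]
    refine le_bot_iff.1 ?_
    change cnt X (k + j) l ⊓ (X (k + j) ⊓ ⨆ i, ⨆ (_ : i ≤ n), cnt X (k + j) i) ≤ ⊥
    refine (inf_le_inf_left _ inf_le_right).trans ?_
    rw [inf_iSup_eq]
    refine iSup_le fun i => ?_
    rw [inf_iSup_eq]
    refine iSup_le fun hi => ?_
    rw [cnt_disjoint X (k + j) l i (by omega)]
  have h3 : (fin X)ᶜ ≤ fin Y := (reach X (n + 1)).trans (iSup_le fun k => inf_le_left.trans (h2 k))
  have h4 : fin X ≤ fin Y := fin_anti fun m => inf_le_left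
  rw [← top_le_iff, ← sup_compl_eq_top (x := fin X)]
  exact sup_le h4 h3

theorem ad : ADStatement.{u} := by
  classical
  intro B _ X
  let e : List Bool → ℕ := Encodable.encode
  let br : (ℕ → Bool) → Set ℕ := fun f => range fun n => e ((List.range n).map f)
  have hinj : ∀ f : ℕ → Bool, Function.Injective fun n => e ((List.range n).map f) := by
    intro f n m h
    have := congrArg List.length (Encodable.encode_injective h)
    simpa using this
  have hinf : ∀ f, (br f).Infinite := fun f => infinite_range_of_injective (hinj f)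
  have hfin : ∀ f g, f ≠ g → (br f ∩ br g).Finite := by
    intro f g hfg
    obtain ⟨k, hk⟩ := Function.ne_iff.1 hfg
    refine ((Set.finite_Iic k).image fun n => e ((List.range n).map f)).subset ?_
    rintro _ ⟨⟨n, rfl⟩, ⟨m, hm⟩⟩
    refine ⟨n, ?_, rfl⟩
    by_contra hnk
    have h1 : (List.range m).map g = (List.range n).map f := Encodable.encode_injective hm
    have h2 : m = n := by simpa using congrArg List.length h1
    subst h2
    have h3 := congrArg (fun l => l[k]?) h1
    have hk' : k < m := not_le.1 hnk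
    simp [hk'] at h3
    exact hk h3.symm
  refine ⟨fun t => sel X (br t), fun t => ⟨fun m => inf_le_left, fin_sel_le X (hinf t)⟩, ?_⟩
  intro t s hts
  obtain ⟨n, hn⟩ := (hfin t s hts).bddAbove
  refine fin_top_of_le ?_ (fin_bounded X n)
  intro m
  change (X m ⊓ ⨆ k, ⨆ (_ : k ∈ br t), cnt X m k) ⊓ (X m ⊓ ⨆ k, ⨆ (_ : k ∈ br s), cnt X m k) ≤
    X m ⊓ ⨆ k, ⨆ (_ : k ≤ n), cnt X m k
  refine le_inf (inf_le_left.trans inf_le_left) ?_
  refine (inf_le_inf inf_le_right inf_le_right).trans ?_
  rw [iSup_inf_eq]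
  refine iSup_le fun k => ?_
  rw [iSup_inf_eq]
  refine iSup_le fun hk => ?_
  rw [inf_iSup_eq]
  refine iSup_le fun l => ?_
  rw [inf_iSup_eq]
  refine iSup_le fun hl => ?_
  by_cases hkl : k = l
  · subst hkl
    exact le_iSup_of_le k (le_iSup_of_le (hn ⟨hk, hl⟩) inf_le_left)
  · rw [cnt_disjoint X m k l hkl]
    exact bot_le

end Pool.Agent.Lib.MP_c5d73d_lc.T.H4
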